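import Pool.Agent.H28.RC.Interface

/-!
# Induced characters as sums over the group (after `Pool/Agent/H15/RC/RC2.lean`)
-/

set_option autoImplicit false

namespace Pool.Agent.H58.R2

open Pool.Agent.H28.RC

/-- the terms of the induced character -/
noncomputable def tm {G : Type} [Group G] (H : Subgroup G) (lam : H →* ℂˣ) (g y : G)
    [Decidable (y⁻¹ * g * y ∈ H)] : ℂ :=
  if h : y⁻¹ * g * y ∈ H then ((lam ⟨_, h⟩ : ℂˣ) : ℂ) else 0

theorem tm_mul {G : Type} [Group G] (H : Subgroup G) (lam : H →* ℂˣ) (g y : G) (h : H)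
    [Decidable (y⁻¹ * g * y ∈ H)] [Decidable ((y * h)⁻¹ * g * (y * h) ∈ H)] :
    tm H lam g (y * h) = tm H lam g y := by
  have e : (y * (h : G))⁻¹ * g * (y * h) = (h : G)⁻¹ * (y⁻¹ * g * y) * h := by group
  unfold tm
  by_cases h1 : y⁻¹ * g * y ∈ H
  · have h2 : (y * (h : G))⁻¹ * g * (y * h) ∈ H := by
      rw [e]
      exact H.mul_mem (H.mul_mem (H.inv_mem h.2) h1) h.2
    rw [dif_pos h1, dif_pos h2]
    have h3 : (⟨_, h2⟩ : H) = h⁻¹ * ⟨_, h1⟩ * h := Subtype.ext e
    rw [h3, map_mul, map_mul, map_inv, mul_comm, mul_inv_cancel_left]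
  · have h2 : ¬ (y * (h : G))⁻¹ * g * (y * h) ∈ H := by
      intro h2
      apply h1
      rw [e] at h2
      have h3 := H.mul_mem (H.mul_mem h.2 h2) (H.inv_mem h.2)
      have e2 : (h : G) * ((h : G)⁻¹ * (y⁻¹ * g * y) * h) * (h : G)⁻¹ = y⁻¹ * g * y := by group
      rwa [e2] at h3
    rw [dif_neg h1, dif_neg h2]

open scoped Classical in
theorem indc_sum {G : Type} [Group G] [Fintype G] (H : Subgroup G) (lam : H →* ℂˣ) (g : G) :
    (Nat.card H : ℂ) * indc H lam g = ∑ y : G, tm H lam g y := by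
  have := Fintype.ofFinite H
  have := Fintype.ofFinite (G ⧸ H)
  have hb : Function.Bijective (fun z : (G ⧸ H) × H => z.1.out * (z.2 : G)) := by
    constructor
    · rintro ⟨x, h⟩ ⟨x', h'⟩ he
      simp only at he
      have h1 : x = x' := by
        have h2 := congrArg (QuotientGroup.mk (s := H)) he
        rw [QuotientGroup.mk_mul_of_mem _ h.2, QuotientGroup.mk_mul_of_mem _ h'.2,
          QuotientGroup.out_eq', QuotientGroup.out_eq'] at h2
        exact h2
      subst h1
      rw [mul_right_inj] at he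
      rw [Subtype.ext he]
    · intro y
      refine ⟨⟨QuotientGroup.mk y, ⟨(QuotientGroup.mk (s := H) y).out⁻¹ * y, ?_⟩⟩, ?_⟩
      · rw [← QuotientGroup.eq, QuotientGroup.out_eq']
      · simp
  have h1 := Fintype.sum_bijective _ hb
    (fun z : (G ⧸ H) × H => tm H lam g (z.1.out * (z.2 : G))) (fun y => tm H lam g y)
    (fun _ => rfl)
  rw [← h1, Fintype.sum_prod_type]
  unfold indc
  rw [finsum_eq_sum_of_fintype, Finset.mul_sum]
  refine Finset.sum_congr rfl fun x _ => ?_
  have h2 : ∀ h : H, tm H lam g (x.out * (h : G)) = tm H lam g x.out := fun h =>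
    tm_mul H lam g x.out h
  simp only [h2]
  rw [Finset.sum_const, Finset.card_univ, nsmul_eq_mul, Nat.card_eq_fintype_card]
  rfl

end Pool.Agent.H58.R2
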