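import Pool.Agent.H29.R2.Targets
import Pool.Agent.H58.R2.Ind

/-!
# Module AIX of the board r2_modules (MP_347b49_nt)
-/

set_option autoImplicit false

namespace Pool.Agent.H58.R2

open Pool.Agent.H28.RC Pool.Agent.H29.R2

/-- a primitive root of unity, as a unit -/
theorem exists_root (m : ℕ) (hm : 0 < m) : ∃ z : ℂˣ, IsPrimitiveRoot z m := by
  have h := Complex.isPrimitiveRoot_exp m hm.ne'
  refine ⟨Units.mk0 (Complex.exp (2 * Real.pi * Complex.I / m)) (Complex.exp_ne_zero _), ?_⟩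
  rw [← IsPrimitiveRoot.coe_units_iff]
  exact h

/-- the characters of the cyclic group generated by `c` -/
theorem exists_char {G : Type} [Group G] [Finite G] (c : G) :
    ∃ (z : ℂˣ) (lam : ℕ → (Subgroup.zpowers c →* ℂˣ)), IsPrimitiveRoot z (orderOf c) ∧
      ∀ j, lam j ⟨c, Subgroup.mem_zpowers c⟩ = z ^ j := by
  obtain ⟨z, hz⟩ := exists_root (orderOf c) (orderOf_pos c)
  have hg : ∀ x : Subgroup.zpowers c, x ∈ Subgroup.zpowers
      (⟨c, Subgroup.mem_zpowers c⟩ : Subgroup.zpowers c) := by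
    rintro ⟨x, k, rfl⟩
    exact ⟨k, rfl⟩
  have ho : ∀ j : ℕ, orderOf (z ^ j) ∣
      orderOf (⟨c, Subgroup.mem_zpowers c⟩ : Subgroup.zpowers c) := by
    intro j
    rw [Subgroup.orderOf_mk]
    refine orderOf_dvd_of_pow_eq_one ?_
    rw [← pow_mul, mul_comm, pow_mul, hz.pow_eq_one, one_pow]
  refine ⟨z, fun j => monoidHomOfForallMemZpowers hg (ho j), hz, fun j => ?_⟩
  exact monoidHomOfForallMemZpowers_apply_gen hg (ho j)

open scoped Classical in
/-- orthogonality -/
theorem orth {G : Type} [Group G] [Finite G] (c : G) (z : ℂˣ)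
    (lam : ℕ → (Subgroup.zpowers c →* ℂˣ)) (hz : IsPrimitiveRoot z (orderOf c))
    (hl : ∀ j, lam j ⟨c, Subgroup.mem_zpowers c⟩ = z ^ j) (x : G)
    (hx : x ∈ Subgroup.zpowers c) :
    ∑ j ∈ Finset.range (orderOf c), ((z⁻¹ ^ j : ℂˣ) : ℂ) * ((lam j ⟨x, hx⟩ : ℂˣ) : ℂ) =
      if x = c then (orderOf c : ℂ) else 0 := by
  obtain ⟨k, hk⟩ := mem_powers_iff_mem_zpowers.2 hx
  simp only at hk
  have h1 : ∀ j, lam j ⟨x, hx⟩ = (z ^ j) ^ k := by
    intro j
    rw [← hl j, ← map_pow]
    congr 1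
    exact Subtype.ext hk.symm
  have h2 : ∀ j, ((z⁻¹ ^ j : ℂˣ) : ℂ) * ((lam j ⟨x, hx⟩ : ℂˣ) : ℂ) =
      (((z⁻¹ * z ^ k : ℂˣ) : ℂ)) ^ j := by
    intro j
    rw [h1 j, ← Units.val_mul, ← Units.val_pow_eq_pow_val, mul_pow, ← pow_mul, ← pow_mul,
      mul_comm j k]
  simp only [h2]
  have h3 : (((z⁻¹ * z ^ k : ℂˣ) : ℂ)) ^ orderOf c = 1 := by
    rw [← Units.val_pow_eq_pow_val, mul_pow, inv_pow, hz.pow_eq_one, ← pow_mul, mul_comm k,
      pow_mul, hz.pow_eq_one, one_pow]
    simp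
  have h4 : (((z⁻¹ * z ^ k : ℂˣ) : ℂ)) = 1 ↔ x = c := by
    rw [← hk]
    constructor
    · intro h
      have h5 : z⁻¹ * z ^ k = 1 := Units.ext h
      have h6 : z ^ k = z ^ 1 := by
        rw [pow_one]
        exact (inv_mul_eq_one.1 h5).symm
      have h7 : k ≡ 1 [MOD orderOf c] := by
        rw [hz.eq_orderOf]
        exact pow_eq_pow_iff_modEq.1 h6
      have h8 := pow_eq_pow_iff_modEq.2 h7
      rw [h8, pow_one]
    · intro h
      have h5 : c ^ k = c ^ 1 := by rw [h, pow_one]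
      have h7 : k ≡ 1 [MOD orderOf c] := pow_eq_pow_iff_modEq.1 h5
      rw [hz.eq_orderOf] at h7
      have h8 := pow_eq_pow_iff_modEq.2 h7
      rw [h8, pow_one, inv_mul_cancel]
      rfl
  by_cases hxc : x = c
  · rw [if_pos hxc, h4.2 hxc]
    simp
  · have h5 : (((z⁻¹ * z ^ k : ℂˣ) : ℂ)) ≠ 1 := fun h => hxc (h4.1 h)
    rw [if_neg hxc, geom_sum_eq h5, h3, sub_self, zero_div]

theorem pf_AIX : T_AIX := by
  classical
  intro G _ _ φ hφ
  have := Fintype.ofFinite G
  choose z lam hz hl using fun c : G => exists_char c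
  let I : Type := Σ c : G, Fin (orderOf c)
  let e : I ≃ Fin (Fintype.card I) := Fintype.equivFin I
  have hG0 : (Nat.card G : ℂ) ≠ 0 := by exact_mod_cast Nat.card_pos.ne'
  let b : I → ℂ := fun i => φ i.1 / Nat.card G * ((z i.1)⁻¹ ^ (i.2 : ℕ) : ℂˣ)
  refine ⟨Fintype.card I, fun n => Subgroup.zpowers (e.symm n).1,
    fun n => lam (e.symm n).1 (e.symm n).2, fun n => b (e.symm n), fun g => ?_, ?_⟩
  · have h1 := Equiv.sum_comp e.symm (fun i : I =>
      b i * indc (Subgroup.zpowers i.1) (lam i.1 i.2) g)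
    rw [h1, Fintype.sum_sigma]
    have h2 : ∀ c : G, ∑ j : Fin (orderOf c), b ⟨c, j⟩ *
        indc (Subgroup.zpowers c) (lam c j) g =
        φ c / Nat.card G * ∑ y : G, if y⁻¹ * g * y = c then 1 else 0 := by
      intro c
      have hc0 : (orderOf c : ℂ) ≠ 0 := by exact_mod_cast (orderOf_pos c).ne'
      have h3 : ∀ j : ℕ, indc (Subgroup.zpowers c) (lam c j) g =
          (orderOf c : ℂ)⁻¹ * ∑ y : G, tm (Subgroup.zpowers c) (lam c j) g y := by
        intro j
        rw [← indc_sum, Nat.card_zpowers, inv_mul_cancel_left₀ hc0]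
      have h4 : ∑ j : Fin (orderOf c), b ⟨c, j⟩ * indc (Subgroup.zpowers c) (lam c j) g =
          ∑ j ∈ Finset.range (orderOf c), φ c / Nat.card G * (((z c)⁻¹ ^ j : ℂˣ) : ℂ) *
            ((orderOf c : ℂ)⁻¹ * ∑ y : G, tm (Subgroup.zpowers c) (lam c j) g y) := by
        rw [← Fin.sum_univ_eq_sum_range (fun j : ℕ => φ c / Nat.card G *
          (((z c)⁻¹ ^ j : ℂˣ) : ℂ) *
            ((orderOf c : ℂ)⁻¹ * ∑ y : G, tm (Subgroup.zpowers c) (lam c j) g y))]
        refine Finset.sum_congr rfl fun j _ => ?_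
        rw [h3]
      rw [h4]
      have h5 : ∀ j : ℕ, φ c / Nat.card G * (((z c)⁻¹ ^ j : ℂˣ) : ℂ) *
            ((orderOf c : ℂ)⁻¹ * ∑ y : G, tm (Subgroup.zpowers c) (lam c j) g y) =
          φ c / Nat.card G * ((orderOf c : ℂ)⁻¹ * ∑ y : G, (((z c)⁻¹ ^ j : ℂˣ) : ℂ) *
            tm (Subgroup.zpowers c) (lam c j) g y) := by
        intro j
        rw [← Finset.mul_sum]
        ring
      simp only [h5]
      rw [← Finset.mul_sum, ← Finset.mul_sum, Finset.sum_comm]
      congr 1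
      rw [Finset.mul_sum]
      refine Finset.sum_congr rfl fun y _ => ?_
      unfold tm
      by_cases h : y⁻¹ * g * y ∈ Subgroup.zpowers c
      · simp only [dif_pos h]
        rw [orth c (z c) (lam c) (hz c) (hl c) _ h]
        split_ifs with h6
        · exact inv_mul_cancel₀ hc0
        · rw [mul_zero]
      · simp only [dif_neg h, mul_zero, Finset.sum_const_zero]
        rw [if_neg]
        intro h6
        apply h
        rw [h6]
        exact Subgroup.mem_zpowers c
    simp only [h2]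
    have h7 : ∑ c : G, φ c / Nat.card G * ∑ y : G, (if y⁻¹ * g * y = c then (1 : ℂ) else 0) =
        ∑ y : G, φ (y⁻¹ * g * y) / Nat.card G := by
      simp only [Finset.mul_sum]
      rw [Finset.sum_comm]
      refine Finset.sum_congr rfl fun y _ => ?_
      rw [Finset.sum_eq_single (y⁻¹ * g * y)]
      · rw [if_pos rfl, mul_one]
      · intro c _ hc
        rw [if_neg hc.symm, mul_zero]
      · intro h
        exact absurd (Finset.mem_univ _) h
    rw [h7]
    simp only [hφ]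
    rw [Finset.sum_const, Finset.card_univ, nsmul_eq_mul, ← Nat.card_eq_fintype_card]
    field_simp
  · have h1 := Equiv.sum_comp e.symm (fun i : I =>
      if lam i.1 i.2 = 1 then b i else 0)
    refine Eq.trans (Eq.trans (Finset.sum_congr rfl fun i _ => ?_) h1) ?_
    · by_cases h : lam (e.symm i).1 (e.symm i).2 = 1
      · rw [if_pos h, if_pos h]
      · rw [if_neg h, if_neg h]
    rw [Fintype.sum_sigma, finsum_eq_sum_of_fintype, Finset.sum_div]
    refine Finset.sum_congr rfl fun c _ => ?_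
    have h2 : ∀ j : Fin (orderOf c), lam c j = 1 ↔ j = ⟨0, orderOf_pos c⟩ := by
      intro j
      constructor
      · intro h
        have h3 := hl c j
        rw [h] at h3
        have h4 : z c ^ (j : ℕ) = 1 := h3.symm
        have h5 := (hz c).pow_eq_one_iff_dvd (j : ℕ) |>.1 h4
        have h6 := Nat.eq_zero_of_dvd_of_lt h5 j.2
        exact Fin.ext h6
      · intro h
        subst h
        ext ⟨x, hx⟩
        obtain ⟨k, hk⟩ := mem_powers_iff_mem_zpowers.2 hx
        simp only at hk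
        have h3 : (⟨x, hx⟩ : Subgroup.zpowers c) = ⟨c, Subgroup.mem_zpowers c⟩ ^ k :=
          Subtype.ext hk.symm
        rw [h3, map_pow, hl c, pow_zero, one_pow]
        simp
    rw [Finset.sum_eq_single (⟨0, orderOf_pos c⟩ : Fin (orderOf c))]
    · rw [if_pos ((h2 _).2 rfl)]
      simp [b]
    · intro j _ hj
      rw [if_neg (fun h => hj ((h2 j).1 h))]
    · intro h
      exact absurd (Finset.mem_univ _) h

end Pool.Agent.H58.R2
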