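import Pool.Agent.H29.R2.Targets
import Pool.Agent.H58.R2.Ind

/-!
# Module IDX of the board r2_modules (MP_347b49_nt)
-/

set_option autoImplicit false

namespace Pool.Agent.H58.R2

open Pool.Agent.H28.RC Pool.Agent.H29.R2

theorem geom_root {n : ℕ} (z : ℂ) (hz : z ^ n = 1) :
    ∑ j ∈ Finset.range n, z ^ j = if z = 1 then (n : ℂ) else 0 := by
  classical
  split_ifs with h
  · subst h
    simp
  · rw [geom_sum_eq h, hz, sub_self, zero_div]

theorem pf_IDX : T_IDX := by
  classical
  intro G _ _ H lam hlam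
  have := Fintype.ofFinite G
  have hfin : Finite lam.range := Set.finite_range lam |>.to_subtype
  obtain ⟨⟨u0, hu0⟩, hgen⟩ := IsCyclic.exists_generator (α := lam.range)
  obtain ⟨h0, rfl⟩ := hu0
  have hord' : orderOf (lam h0) = Nat.card lam.range := by
    rw [← orderOf_eq_card_of_forall_mem_zpowers hgen]
    exact (Subgroup.orderOf_mk (lam h0) (MonoidHom.mem_range.2 ⟨h0, rfl⟩)).symm
  have hn0 : 0 < Nat.card lam.range := Nat.card_pos
  have hpow : ∀ h : H, lam h ^ Nat.card lam.range = 1 := by
    intro h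
    have h1 : (⟨lam h, ⟨h, rfl⟩⟩ : lam.range) ^ Nat.card lam.range = 1 := pow_card_eq_one'
    exact congrArg Subtype.val h1
  have hn : 2 ≤ Nat.card lam.range := by
    by_contra hcon
    have h1 : Nat.card lam.range = 1 := by omega
    apply hlam
    ext h
    have h2 := hpow h
    rw [h1, pow_one] at h2
    rw [h2]
    rfl
  have hN : ∀ x : G, x ∈ (lam.ker).map H.subtype ↔ ∃ h : x ∈ H, lam ⟨x, h⟩ = 1 := by
    intro x
    rw [Subgroup.mem_map]
    constructor
    · rintro ⟨y, hy, rfl⟩
      exact ⟨y.2, hy⟩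
    · rintro ⟨h, h1⟩
      exact ⟨⟨x, h⟩, h1, rfl⟩
  refine ⟨Nat.card lam.range, (lam.ker).map H.subtype, hn, ?_, ?_⟩
  · intro j hj1 hj2 hE
    have h1 : lam h0 ^ j = 1 := by
      have := congrArg (fun f : H →* ℂˣ => f h0) hE
      exact this
    have h2 : orderOf (lam h0) ∣ j := orderOf_dvd_of_pow_eq_one h1
    rw [hord'] at h2
    exact absurd (Nat.le_of_dvd hj1 h2) (not_le.2 hj2)
  · intro g
    have hcH : Nat.card H = Nat.card lam.range * Nat.card ((lam.ker).map H.subtype) := by
      have h1 : Nat.card ((lam.ker).map H.subtype) = Nat.card lam.ker :=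
        Subgroup.card_map_of_injective H.subtype_injective
      rw [h1, ← Subgroup.index_ker lam, mul_comm]
      exact (Subgroup.card_mul_index lam.ker).symm
    have hcN0 : (Nat.card ((lam.ker).map H.subtype) : ℂ) ≠ 0 := by
      exact_mod_cast Nat.card_pos.ne'
    have hn0' : (Nat.card lam.range : ℂ) ≠ 0 := by exact_mod_cast hn0.ne'
    have hcH0 : (Nat.card H : ℂ) ≠ 0 := by
      exact_mod_cast Nat.card_pos.ne'
    have h1 : ∀ y : G, ∑ j ∈ Finset.range (Nat.card lam.range), tm H (lam ^ j) g y =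
        Nat.card lam.range * tm ((lam.ker).map H.subtype) 1 g y := by
      intro y
      unfold tm
      by_cases h : y⁻¹ * g * y ∈ H
      · simp only [dif_pos h]
        have h2 : ∀ j : ℕ, (((lam ^ j) ⟨y⁻¹ * g * y, h⟩ : ℂˣ) : ℂ) =
            ((lam ⟨y⁻¹ * g * y, h⟩ : ℂˣ) : ℂ) ^ j := by
          intro j
          rw [MonoidHom.pow_apply, Units.val_pow_eq_pow_val]
        simp only [h2]
        rw [geom_root _ (by rw [← Units.val_pow_eq_pow_val, hpow]; rfl)]
        by_cases h3 : lam ⟨y⁻¹ * g * y, h⟩ = 1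
        · rw [if_pos (by rw [h3]; rfl), dif_pos ((hN _).2 ⟨h, h3⟩)]
          simp
        · rw [if_neg (by
            intro h4
            exact h3 (Units.ext h4)), dif_neg (by
            intro h4
            obtain ⟨h5, h6⟩ := (hN _).1 h4
            exact h3 h6), mul_zero]
      · simp only [dif_neg h, Finset.sum_const_zero]
        rw [dif_neg (fun h4 => h ((hN _).1 h4).1), mul_zero]
    have h2 : (Nat.card H : ℂ) * ∑ j ∈ Finset.range (Nat.card lam.range), indc H (lam ^ j) g =
        Nat.card lam.range * (Nat.card ((lam.ker).map H.subtype) *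
          indc ((lam.ker).map H.subtype) 1 g) := by
      rw [indc_sum, Finset.mul_sum, Finset.mul_sum]
      simp only [indc_sum]
      rw [Finset.sum_comm]
      exact Finset.sum_congr rfl fun y _ => h1 y
    rw [hcH, Nat.cast_mul, ← mul_assoc] at h2
    exact mul_left_cancel₀ (mul_ne_zero hn0' hcN0) h2

end Pool.Agent.H58.R2
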