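import Pool.Agent.H29.R2.Targets

/-!
# Module MLI of the board r2_modules (MP_347b49_nt)
-/

set_option autoImplicit false

open Complex Filter Topology

namespace Pool.Agent.H58.R2

open Pool.Agent.H29.R2

lemma norm_cpow_prime (p : Nat.Primes) (z : ℂ) :
    ‖((p : ℕ) : ℂ) ^ z‖ = ((p : ℕ) : ℝ) ^ z.re :=
  Complex.norm_natCast_cpow_of_pos p.2.pos z

lemma summable_w {C : ℝ} (w : Nat.Primes → ℂ) (hw : ∀ p, ‖w p‖ ≤ C) (z : ℂ) (hz : 1 < z.re) :
    Summable fun p : Nat.Primes => w p * ((p : ℕ) : ℂ) ^ (-z) := by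
  have h1 : Summable fun p : Nat.Primes => C * ((p : ℕ) : ℝ) ^ (-z.re) :=
    (Nat.Primes.summable_rpow.2 (by linarith)).mul_left C
  refine Summable.of_norm_bounded h1 fun p => ?_
  rw [norm_mul, norm_cpow_prime, neg_re]
  exact mul_le_mul_of_nonneg_right (hw p) (Real.rpow_nonneg (Nat.cast_nonneg _) _)

theorem pf_MLI : T_MLI := by
  classical
  intro e w C B he hw hB t k l hl s hs
  set z0 : ℂ := 1 + t * I with hz0
  have hz0re : z0.re = 1 := by simp [hz0]
  let W : ℝ → ℂ := fun σ => ∑' p : Nat.Primes, w p * ((p : ℕ) : ℂ) ^ (-(z0 + σ))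
  let S : Finset Nat.Primes := B.preimage (fun p : Nat.Primes => (p : ℕ))
    (fun a _ b _ h => Subtype.ext h)
  have hS : ∀ p : Nat.Primes, p ∈ S ↔ (p : ℕ) ∈ B := fun p => Finset.mem_preimage
  let R : ℝ → ℂ := fun σ => ∑ p ∈ S, (w p - e p 1) * ((p : ℕ) : ℂ) ^ (-(z0 + σ))
  have hre : ∀ σ : ℝ, 0 < σ → 1 < (z0 + σ).re := by
    intro σ hσ
    rw [add_re, hz0re, ofReal_re]
    linarith
  have hW : ∀ σ : ℝ, 0 < σ → W σ = P1 e (z0 + σ) + R σ := by
    intro σ hσ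
    have h1 := summable_w (fun p => e p 1) (fun p => he p 1) (z0 + σ) (hre σ hσ)
    have h2 := summable_w w hw (z0 + σ) (hre σ hσ)
    have h3 : ∑' p : Nat.Primes, (w p - e p 1) * ((p : ℕ) : ℂ) ^ (-(z0 + σ)) = R σ := by
      refine tsum_eq_sum fun p hp => ?_
      rw [hS] at hp
      rw [hB p hp, sub_self, zero_mul]
    have h4 : W σ - P1 e (z0 + σ) = R σ := by
      rw [← h3]
      have h5 := (h2.tsum_sub h1)
      simp only [← sub_mul] at h5
      exact h5.symm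
    rw [← h4]
    ring
  have hRc : ContinuousAt R 0 := by
    refine tendsto_finsetSum _ fun p _ => ?_
    have h1 : Continuous fun σ : ℝ => ((p : ℕ) : ℂ) ^ (-(z0 + σ)) := by
      refine Continuous.const_cpow (by fun_prop) (Or.inl ?_)
      exact_mod_cast p.2.ne_zero
    exact (h1.tendsto 0).const_mul _
  have hg : Tendsto (fun σ : ℝ => W σ + k * (Real.log σ : ℂ)) (𝓝[>] 0) (𝓝 (l + R 0)) := by
    have h1 := hl.add (hRc.tendsto.mono_left nhdsWithin_le_nhds)
    refine h1.congr' ?_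
    filter_upwards [self_mem_nhdsWithin] with σ hσ
    rw [hW σ hσ]
    ring
  have hdiv : ∀ c : ℝ, 0 < c → Tendsto (fun L : ℝ => c / L) atTop (𝓝[>] 0) := by
    intro c hc
    refine tendsto_nhdsWithin_iff.2 ⟨tendsto_const_nhds.div_atTop tendsto_id, ?_⟩
    filter_upwards [eventually_gt_atTop 0] with L hL
    exact div_pos hc hL
  have hs' : (0 : ℝ) < s := by exact_mod_cast hs
  have h1 := (hg.comp (hdiv s hs')).sub (hg.comp (hdiv 1 one_pos))
  have h2 := h1.sub_const ((k : ℂ) * (Real.log s : ℂ))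
  rw [sub_self, zero_sub] at h2
  refine h2.congr' ?_
  filter_upwards [eventually_gt_atTop 0] with L hL
  have hsL : 0 < (s : ℝ) / L := div_pos hs' hL
  have h1L : 0 < (1 : ℝ) / L := div_pos one_pos hL
  have h3 : ∑' p : Nat.Primes, w p * ((p : ℕ) : ℂ) ^ (-(t * I) : ℂ) *
      ((((p : ℕ) : ℝ) ^ (-(1 + s / L) : ℝ) - ((p : ℕ) : ℝ) ^ (-(1 + 1 / L) : ℝ) : ℝ) : ℂ) =
      W (s / L) - W (1 / L) := by
    have h4 := (summable_w w hw (z0 + ((s / L : ℝ) : ℂ)) (hre _ hsL)).tsum_sub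
      (summable_w w hw (z0 + ((1 / L : ℝ) : ℂ)) (hre _ h1L))
    rw [← h4]
    refine tsum_congr fun p => ?_
    have h5 : ∀ σ : ℝ, ((p : ℕ) : ℂ) ^ (-(z0 + σ)) = ((p : ℕ) : ℂ) ^ (-(t * I) : ℂ) *
        ((((p : ℕ) : ℝ) ^ (-(1 + σ) : ℝ) : ℝ) : ℂ) := by
      intro σ
      have hp0 : ((p : ℕ) : ℂ) ≠ 0 := by exact_mod_cast p.2.ne_zero
      rw [Complex.ofReal_cpow (Nat.cast_nonneg _), ofReal_natCast, ← Complex.cpow_add _ _ hp0]
      congr 1
      rw [hz0]
      push_cast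
      ring
    rw [h5, h5, ofReal_sub]
    ring
  rw [h3]
  simp only [Function.comp_apply]
  have h6 : Real.log (s / L) = Real.log s - Real.log L := Real.log_div hs'.ne' hL.ne'
  have h7 : Real.log (1 / L) = - Real.log L := by
    rw [one_div, Real.log_inv]
  rw [h6, h7]
  push_cast
  ring

end Pool.Agent.H58.R2
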